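import Pool.Agent.Y703.CT.StmC

/-!
# Project CT (helper703): local conditions at the primes not above three
-/

set_option autoImplicit false
set_option linter.unusedVariables false

open scoped Classical

namespace Pool.Agent.Y153.CTRAM

open WeierstrassCurve
open Pool.Agent.Y703.CT
open Pool.Agent.Y692.QS (Ei w nr toC)
open Pool.Agent.Y715.T.RecG (Pq)
open Pool.Agent.Y715.T.Gi Pool.Agent.Y715.T.Nr Pool.Agent.Y715.T.Df Pool.Agent.Y715.T.Ell
open Pool.Agent.Y715.T.Red Pool.Agent.Y715.T.Odd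

/-! ### The powers of `[ω]` -/

section

variable {F : Type} [Field F] [Algebra ℚ F] [CharZero F] {I : F} (hI : I ^ 2 + I + 1 = 0)

lemma jj_add (c : ZMod 3) (P Q : Pt F) : jj hI c (P + Q) = jj hI c P + jj hI c Q :=
  iterate_map_add _ _ _ _

lemma jj_sub (c : ZMod 3) (P Q : Pt F) : jj hI c (P - Q) = jj hI c P - jj hI c Q :=
  iterate_map_sub _ _ _ _

lemma jj_nsmul (c : ZMod 3) (n : ℕ) (P : Pt F) : jj hI c (n • P) = n • jj hI c P :=
  iterate_map_nsmul _ _ _ _

lemma jj_zero (P : Pt F) : jj hI 0 P = P := by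
  unfold jj
  rw [ZMod.val_zero]
  rfl

lemma jj_one (P : Pt F) : jj hI 1 P = im (isE F) hI P := by
  unfold jj
  rw [ZMod.val_one]
  rfl

lemma val_neg_one' : (-1 : ZMod 3).val = 2 := by decide

lemma jj_neg_one (P : Pt F) : jj hI (-1) P = im (isE F) hI (im (isE F) hI P) := by
  unfold jj
  rw [val_neg_one']
  rfl

lemma jj_tt (c d : ZMod 3) : jj hI c (tt F d) = tt F d := by
  rcases z3 c with rfl | rfl | rfl
  · exact jj_zero hI _
  · rw [jj_one, im_tt]
  · rw [jj_neg_one, im_tt, im_tt]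

lemma nsmul_tt (ε c : ZMod 3) : ε.val • tt F c = tt F (ε * c) := by
  rcases z3 ε with rfl | rfl | rfl
  · rw [ZMod.val_zero, zero_smul, zero_mul, tt_zero]
  · rw [ZMod.val_one, one_smul, one_mul]
  · rw [val_neg_one', two_nsmul, ← tt_add]
    congr 1
    revert c
    decide

/-- the point of order three with `(1 - ω) T₃ = T` -/
lemma exists_T3 : ∃ h : (W0.baseChange F).toAffine.Nonsingular (-1) (I ^ 2),
    im (isE F) hI (Affine.Point.some (-1) (I ^ 2) h : Pt F) =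
      Affine.Point.some (-1) (I ^ 2) h - tt F 1 := by
  have hI3 : I ^ 3 = 1 := by linear_combination (I - 1) * hI
  have h : (W0.baseChange F).toAffine.Nonsingular (-1) (I ^ 2) := by
    apply (isE F).nons
    linear_combination I * hI3 + hI
  refine ⟨h, ?_⟩
  obtain ⟨X, h', e, hX⟩ := one_sub_im (isE F) hI h (neg_ne_zero.2 one_ne_zero)
  have hg : gg I (Affine.Point.some (-1) (I ^ 2) h : Pt F) ^ 3 = 0 := by
    rw [gg_some, sub_self, zero_div]
    ring
  have hX0 : X = 0 := by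
    have h1 : (3 : F) * X = 0 := by linear_combination hX
    exact (mul_eq_zero.1 h1).resolve_left three_ne_zero
  have e2 : (Affine.Point.some (-1) (I ^ 2) h : Pt F) - im (isE F) hI (.some (-1) (I ^ 2) h) =
      tt F 1 := by
    rw [e, tt_one]
    unfold T0
    rw [Affine.Point.some.injEq]
    exact ⟨hX0, hg⟩
  rw [← e2]
  abel

end

variable {p : ℕ} [Fact p.Prime]

lemma norm_three_one (hp : p ≠ 3) : ‖(3 : PadicAlgCl p)‖ = 1 := by
  have hpp : p.Prime := Fact.out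
  have h : ¬ p ∣ 3 := fun h => hp ((Nat.prime_dvd_prime_iff_eq hpp Nat.prime_three).1 h)
  have := Pool.Agent.W327.RK.norm_nat h
  exact_mod_cast this

/-- cube roots of units -/
lemma fix_of_unit {I : PadicAlgCl p} (hI : I ^ 2 + I + 1 = 0)
    (hp : p ≠ 3) {z s : PadicAlgCl p} (hs : s ^ 3 = z)
    (hz : ‖z‖ = 1) {τ : Au p} (hτ : Inert τ) (hτz : τ z = z) : τ s = s := by
  have h2 : ‖s‖ = 1 := by
    rw [← hs, norm_pow] at hz
    exact (pow_eq_one_iff_of_nonneg (norm_nonneg _) three_ne_zero).1 hz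
  have h3 : (τ s) ^ 3 = s ^ 3 := by
    rw [← map_pow, hs, hτz]
  obtain ⟨n, hn⟩ := cube_eq hI h3
  have h4 := hτ s h2.le
  have h5 : ‖I ^ n - 1‖ < 1 := by
    have e1 : τ s - s = (I ^ n - 1) * s := by rw [hn]; ring
    rwa [e1, norm_mul, h2, mul_one] at h4
  have hI3 : I ^ 3 = 1 := by linear_combination (I - 1) * hI
  have hIn := norm_I hI
  have h6 : I ^ n = I ^ (n % 3) := by
    conv_lhs => rw [← Nat.div_add_mod n 3]
    rw [pow_add, pow_mul, hI3, one_pow, one_mul]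
  have h7 : n % 3 = 0 ∨ n % 3 = 1 ∨ n % 3 = 2 := by omega
  have e2 : (3 : PadicAlgCl p) = (I - 1) * (I ^ 2 - 1) := by
    linear_combination (2 - I) * hI
  rcases h7 with h7 | h7 | h7
  · rw [hn, h6, h7, pow_zero, one_mul]
  · exfalso
    rw [h6, h7, pow_one] at h5
    have h8 : ‖(3 : PadicAlgCl p)‖ < 1 := by
      rw [e2, norm_mul]
      have h9 : ‖I ^ 2 - 1‖ ≤ 1 := by
        refine sub_le ?_ (by rw [norm_one])
        rw [norm_pow, hIn, one_pow]
      calc ‖I - 1‖ * ‖I ^ 2 - 1‖ ≤ ‖I - 1‖ * 1 := by gcongr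
        _ < 1 := by rwa [mul_one]
    rw [norm_three_one hp] at h8
    exact lt_irrefl _ h8
  · exfalso
    rw [h6, h7] at h5
    have h8 : ‖(3 : PadicAlgCl p)‖ < 1 := by
      rw [e2, norm_mul]
      have h9 : ‖I - 1‖ ≤ 1 := by
        refine sub_le ?_ (by rw [norm_one])
        rw [hIn]
      calc ‖I - 1‖ * ‖I ^ 2 - 1‖ ≤ 1 * ‖I ^ 2 - 1‖ := by gcongr
        _ < 1 := by rwa [one_mul]
    rw [norm_three_one hp] at h8
    exact lt_irrefl _ h8

lemma iota_ev {i₀ : QB} (hi : i₀ ^ 2 + i₀ + 1 = 0) (ι : QB →ₐ[ℚ] PadicAlgCl p) (z : Ei) :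
    ι (ev i₀ hi z) = ev (ι i₀) (iota_sq' hi ι) z :=
  map_ev ι.toRingHom hi (iota_sq' hi ι) rfl z

/-- the character at an automorphism which fixes the cube root -/
lemma a_zero {i₀ : QB} {hi : i₀ ^ 2 + i₀ + 1 = 0} {D : Ei} {u : QB} {a : GK i₀ → ZMod 3}
    (hT : Tw hi D u a) (hu : u ≠ 0) {σ : GK i₀} (hσ : σ u = u) : a σ = 0 := by
  have h1 := hT.act σ
  rw [hσ] at h1
  have h2 : i₀ ^ (-a σ).val = 1 := by
    apply mul_right_cancel₀ hu
    rw [← h1, one_mul]
  have h4 : (i₀ : QB) ≠ 1 := by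
    rintro rfl
    have h3 : (3 : QB) = 0 := by linear_combination hi
    exact three_ne_zero h3
  rcases z3 (-a σ) with h3 | h3 | h3
  · exact neg_eq_zero.1 h3
  · rw [h3, ZMod.val_one, pow_one] at h2
    exact absurd h2 h4
  · rw [h3, val_neg_one'] at h2
    exfalso
    apply h4
    have h5 : i₀ = -2 := by linear_combination hi - h2
    rw [h5] at h2
    have h6 : (3 : QB) = 0 := by linear_combination h2
    exact absurd h6 three_ne_zero

lemma ne_zero_of {J : Type} [Fintype J] {π : J → Ei} {e : J → ZMod 3} (hD : Dt π e) :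
    pD π e ≠ 0 := by
  unfold pD
  rw [Finset.prod_ne_zero_iff]
  intro j _
  exact pow_ne_zero _ (hD.pq j).prime.ne_zero

lemma u_ne {i₀ : QB} {hi : i₀ ^ 2 + i₀ + 1 = 0} {D : Ei} {u : QB} {a : GK i₀ → ZMod 3}
    (hT : Tw hi D u a) (hD : D ≠ 0) : u ≠ 0 := by
  rintro rfl
  have h1 := hT.cube
  have h2 : ev i₀ hi D = 0 := by rw [← h1]; ring
  exact hD (ev_inj hi h2)

/-- CT-UNR -/
theorem t_UNR : S_UNR := by
  intro J _ π e hD i₀ hi u a hT h p _ ι hp hπ R hS τ σ hc hτ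
  have hI := iota_sq' hi ι
  have h3 := norm_three_one (p := p) hp
  have hu := u_ne hT (ne_zero_of hD)
  have ha : a σ = 0 := by
    refine a_zero hT hu ?_
    apply ι.injective
    show ι (σ u) = ι u
    rw [← hc]
    have hτI : τ (ι i₀) = ι i₀ := hc.fix
    refine fix_of_unit hI hp (z := ι (ev i₀ hi (pD π e))) ?_ ?_ hτ ?_
    · rw [← map_pow, hT.cube]
    · rw [iota_ev]
      unfold pD
      rw [map_prod, norm_prod]
      apply Finset.prod_eq_one
      intro j _
      rw [map_pow, norm_pow]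
      have h4 := hπ j
      rw [iota_ev] at h4
      rw [eq_one_of_not_lt hI h4, one_pow]
    · rw [iota_ev]
      exact ev_fix hI hτI _
  refine ⟨ha, ?_⟩
  have h4 := hS τ σ hc
  rw [ha, jj_zero] at h4
  apply tt_mem (p := p)
  rw [← h4]
  exact inert_mem h3 hτ _

/-- the kernel of reduction is stable -/
lemma lh_mem {τ : Au p} {P : Pt (PadicAlgCl p)} (hP : P ∈ E1 (isE (PadicAlgCl p))) :
    pm (lh τ) P ∈ E1 (isE (PadicAlgCl p)) := by
  rcases (mem_E1 _).1 hP with h9 | ⟨x, y, hn, h9, hx⟩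
  · rw [h9, pm_zero]
    exact zero_mem _
  · rw [h9, pm_some, some_mem, lh_apply, nrm]
    exact hx

lemma jj_mem {I : PadicAlgCl p} (hI : I ^ 2 + I + 1 = 0) (c : ZMod 3) {P : Pt (PadicAlgCl p)}
    (hP : P ∈ E1 (isE (PadicAlgCl p))) : jj hI c P ∈ E1 (isE (PadicAlgCl p)) := by
  rcases z3 c with rfl | rfl | rfl
  · rw [jj_zero]
    exact hP
  · rw [jj_one]
    exact im_mem _ hI hP
  · rw [jj_neg_one]
    exact im_mem _ hI (im_mem _ hI hP)

/-- CT-RAM -/
theorem t_RAM : S_RAM := by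
  intro J _ π e hD i₀ hi u a hT h j p _ ι hπ R hS
  have hI := iota_sq' hi ι
  have hu := u_ne hT (ne_zero_of hD)
  have hπ' := hπ
  rw [iota_ev] at hπ'
  -- the residue characteristic is not three
  have hp : p ≠ 3 := by
    rintro rfl
    obtain ⟨q, hq⟩ := (hD.pq j).three
    have e1 : π j = 1 + 3 * q := by linear_combination hq
    have h1 : ‖ev (ι i₀) hI (3 * q)‖ < 1 := by
      rw [map_mul]
      rw [mul_comm]
      refine mul_lt (ev_le hI q) ?_
      rw [map_ofNat, norm_three']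
      norm_num
    have h2 : ‖ev (ι i₀) hI (π j)‖ = 1 := by
      rw [e1, map_add, map_one, eq_of_lt, norm_one]
      rwa [norm_one]
    rw [h2] at hπ'
    exact lt_irrefl _ hπ'
  have h3 := norm_three_one (p := p) hp
  have hpr := (hD.pq j).prime
  -- an automorphism of the inertia group which moves the cube root
  have hne : ∃ (τ : Au p) (σ : GK i₀), Cmp ι τ σ ∧ Inert τ ∧ a σ ≠ 0 := by
    by_contra hcon
    push Not at hcon
    have hfix : ∀ τ : Au p, Inert τ → τ (ι i₀) = ι i₀ → τ (ι u) = ι u := by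
      intro τ hτ hτI
      obtain ⟨σ, hc⟩ := exists_cmp ι τ hτI
      rw [hc, hT.act σ, hcon τ σ hc hτ, neg_zero, ZMod.val_zero, pow_zero, one_mul]
    obtain ⟨m, hm⟩ := norm_odd hI hp (z := ι u) ((map_ne_zero ι).2 hu) hfix
    have hn : ‖(ι u) ^ 3‖ = (p : ℝ) ^ (-((e j).val : ℤ)) := by
      rw [← map_pow, hT.cube, iota_ev]
      unfold pD
      rw [map_prod, norm_prod, Finset.prod_eq_single j]
      · rw [map_pow, norm_pow, norm_prime hI hp hpr hπ', inv_pow, zpow_neg, zpow_natCast]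
      · intro i _ hij
        rw [map_pow, norm_pow]
        have h4 : ¬ ‖ev (ι i₀) hI (π i)‖ < 1 := by
          intro h5
          exact hD.nd i j hij ((dvd_iff hI hpr hπ' _).2 h5)
        rw [eq_one_of_not_lt hI h4, one_pow]
      · intro h4
        exact absurd (Finset.mem_univ j) h4
    have h5 := three_of hm hn
    have h6 : (e j).val < 3 := ZMod.val_lt _
    have h7 : (e j).val ≠ 0 := by
      intro h8
      exact hD.e0 j ((ZMod.val_eq_zero _).1 h8)
    omega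
  obtain ⟨τ₁, σ₁, hc₁, hτ₁, ha₁⟩ := hne
  obtain ⟨hn3, hT3⟩ := exists_T3 hI
  set T3 : Pt (PadicAlgCl p) := Affine.Point.some (-1) ((ι i₀) ^ 2) hn3 with hT3d
  have hjT3 : ∀ c : ZMod 3, jj hI c T3 = T3 - tt _ c := by
    intro c
    rcases z3 c with rfl | rfl | rfl
    · rw [jj_zero, tt_zero, sub_zero]
    · rw [jj_one, hT3]
    · rw [jj_neg_one, hT3, map_sub, im_tt, hT3, sub_sub, ← tt_add]
      congr 2
  have hlT3 : ∀ τ : Au p, τ (ι i₀) = ι i₀ → pm (lh τ) T3 = T3 := by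
    intro τ hτI
    rw [hT3d, pm_some, Affine.Point.some.injEq]
    rw [lh_apply, lh_apply]
    constructor
    · rw [map_neg, map_one]
    · rw [map_pow, hτI]
  -- the correction
  obtain ⟨ε, hε⟩ : ∃ ε : ZMod 3, ε * a σ₁ = h σ₁ := by
    refine ⟨h σ₁ * a σ₁, ?_⟩
    have : ∀ x y : ZMod 3, y ≠ 0 → x * y * y = x := by decide
    exact this _ _ ha₁
  refine ⟨ε, ?_⟩
  set R' : Pt (PadicAlgCl p) := R + ε.val • T3 with hR'
  have hmem : jj hI (a σ₁) R' - R' ∈ E1 (isE (PadicAlgCl p)) := by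
    have h4 := hS τ₁ σ₁ hc₁
    have h5 := jj_mem hI (a σ₁) (inert_mem h3 hτ₁ R)
    rw [jj_sub] at h5
    have e1 : jj hI (a σ₁) R' - R' = -(jj hI (a σ₁) (pm (lh τ₁) R) - jj hI (a σ₁) R) := by
      have e2 : jj hI (a σ₁) (pm (lh τ₁) R) = R + tt _ (h σ₁) := by
        rw [← h4]
        abel
      rw [e2, hR', jj_add, jj_nsmul, hjT3, smul_sub, nsmul_tt, hε]
      abel
    rw [e1]
    exact neg_mem h5
  have hmem2 : R' - im (isE _) hI R' ∈ E1 (isE (PadicAlgCl p)) := by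
    rcases z3 (a σ₁) with h4 | h4 | h4
    · exact absurd h4 ha₁
    · rw [h4, jj_one] at hmem
      rw [← neg_sub]
      exact neg_mem hmem
    · rw [h4, jj_neg_one, im_im] at hmem
      have h5 := im_mem _ hI hmem
      rw [map_sub, map_sub, map_neg, im_im] at h5
      have e1 : R' - im (isE _) hI R' =
          -im (isE (PadicAlgCl p)) hI R' - (-R' - im (isE _) hI R') - im (isE _) hI R' := by
        abel
      rw [e1]
      exact h5
  obtain ⟨R₁, hR₁, e₁⟩ := surj_E1 (isE (PadicAlgCl p)) h3 hI hmem2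
  have hker : (R' - R₁) - im (isE (PadicAlgCl p)) hI (R' - R₁) = 0 := by
    rw [map_sub]
    have e2 : R' - R₁ - (im (isE (PadicAlgCl p)) hI R' - im (isE _) hI R₁) =
        (R' - im (isE (PadicAlgCl p)) hI R') - (R₁ - im (isE _) hI R₁) := by abel
    rw [e2, e₁, sub_self]
  obtain ⟨c, hc⟩ := ker_tt hI hker
  have hR : R = R₁ + tt _ c - ε.val • T3 := by
    rw [← hc, hR']
    abel
  intro τ σ hcτ
  have hτI : τ (ι i₀) = ι i₀ := hcτ.fix
  have h4 := hS τ σ hcτ
  rw [hR, map_sub, map_add, pm_tt, map_nsmul, hlT3 τ hτI, jj_sub, jj_add, jj_tt, jj_nsmul, hjT3,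
    smul_sub, nsmul_tt] at h4
  have h5 : jj hI (a σ) (pm (lh τ) R₁) - R₁ = tt _ (h σ - ε * a σ) := by
    rw [tt_sub, ← h4]
    abel
  have h6 : jj hI (a σ) (pm (lh τ) R₁) - R₁ ∈ E1 (isE (PadicAlgCl p)) :=
    sub_mem (jj_mem hI _ (lh_mem hR₁)) hR₁
  rw [h5] at h6
  exact sub_eq_zero.1 (tt_mem h6)

end Pool.Agent.Y153.CTRAM
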