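import Pool.Agent.Y314.CT.Stm

set_option autoImplicit false

/-!
# Project CT, part FP

A group which is quasi-isometric to `N_t` is finitely presented.
-/

namespace Pool.Agent.Y153.CT

open Pool.Agent.Y314.CT

/-! ### Basic facts about the word norm `wn` -/

section basic

variable {H : Type} [Group H] {n : ℕ} {gens : Fin n → H}

theorem exists_word (hs : Function.Surjective (FreeGroup.lift gens)) (h : H) :
    ∃ w : FreeGroup (Fin n), FreeGroup.lift gens w = h ∧ w.norm ≤ wn gens h := by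
  have hne : {k : ℕ | ∃ w : FreeGroup (Fin n),
      FreeGroup.lift gens w = h ∧ w.norm ≤ k}.Nonempty := by
    obtain ⟨w, hw⟩ := hs h
    exact ⟨w.norm, w, hw, le_rfl⟩
  exact Nat.sInf_mem hne

theorem wn_lift_le (w : FreeGroup (Fin n)) : wn gens (FreeGroup.lift gens w) ≤ w.norm :=
  Nat.sInf_le ⟨w, rfl, le_rfl⟩

theorem wn_one : wn gens (1 : H) = 0 := by
  have := wn_lift_le (gens := gens) (1 : FreeGroup (Fin n))
  simpa using this

theorem wn_mul_le (hs : Function.Surjective (FreeGroup.lift gens)) (g h : H) :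
    wn gens (g * h) ≤ wn gens g + wn gens h := by
  obtain ⟨u, hu, hu'⟩ := exists_word hs g
  obtain ⟨v, hv, hv'⟩ := exists_word hs h
  have := wn_lift_le (gens := gens) (u * v)
  rw [map_mul, hu, hv] at this
  exact this.trans ((FreeGroup.norm_mul_le u v).trans (add_le_add hu' hv'))

theorem wn_inv (hs : Function.Surjective (FreeGroup.lift gens)) (g : H) :
    wn gens g⁻¹ = wn gens g := by
  have key : ∀ g : H, wn gens g⁻¹ ≤ wn gens g := by
    intro g
    obtain ⟨u, hu, hu'⟩ := exists_word hs g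
    have := wn_lift_le (gens := gens) u⁻¹
    rw [map_inv, hu, FreeGroup.norm_inv_eq] at this
    exact this.trans hu'
  exact le_antisymm (key g) (by simpa using key g⁻¹)

theorem eq_one_of_wn (hs : Function.Surjective (FreeGroup.lift gens)) {g : H}
    (h : wn gens g = 0) : g = 1 := by
  obtain ⟨u, hu, hu'⟩ := exists_word hs g
  rw [h, Nat.le_zero, FreeGroup.norm_eq_zero] at hu'
  rw [← hu, hu', map_one]

theorem wn_gen_le (x : Fin n) : wn gens (gens x) ≤ 1 := by
  have := wn_lift_le (gens := gens) (FreeGroup.of x)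
  simpa using this

theorem wn_mk_singleton_le (x : Fin n × Bool) :
    wn gens (FreeGroup.lift gens (FreeGroup.mk [x])) ≤ 1 :=
  (wn_lift_le _).trans (FreeGroup.norm_mk_le)

theorem finite_norm_le (n k : ℕ) : {w : FreeGroup (Fin n) | w.norm ≤ k}.Finite :=
  (List.finite_length_le (Fin n × Bool) k).preimage FreeGroup.toWord_injective.injOn

end basic

/-! ### The group presented by the short relations -/

section pres

variable {H : Type} [Group H] {n : ℕ} (gens : Fin n → H) (N : ℕ)

/-- The short relations. -/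
def rl : Set (FreeGroup (Fin n)) := {w | w.norm ≤ 3 * N ∧ FreeGroup.lift gens w = 1}

theorem rl_finite : (rl gens N).Finite :=
  (finite_norm_le n (3 * N)).subset fun _ h => h.1

/-- The group presented by the short relations. -/
abbrev PG : Type := FreeGroup (Fin n) ⧸ Subgroup.normalClosure (rl gens N)

/-- The class of a word. -/
def cl (w : FreeGroup (Fin n)) : PG gens N := QuotientGroup.mk w

theorem cl_mul (u v : FreeGroup (Fin n)) : cl gens N (u * v) = cl gens N u * cl gens N v := rfl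

theorem cl_one : cl gens N 1 = 1 := rfl

variable {gens N}

theorem cl_eq {u v : FreeGroup (Fin n)} (h : FreeGroup.lift gens u = FreeGroup.lift gens v)
    (hn : u.norm + v.norm ≤ 3 * N) : cl gens N u = cl gens N v := by
  refine QuotientGroup.eq.2 (Subgroup.subset_normalClosure ⟨?_, ?_⟩)
  · refine (FreeGroup.norm_mul_le _ _).trans ?_
    rwa [FreeGroup.norm_inv_eq]
  · rw [map_mul, map_inv, h, inv_mul_cancel]

theorem cl_eq_one {w : FreeGroup (Fin n)} (h : cl gens N w = 1) :
    w ∈ Subgroup.normalClosure (rl gens N) := (QuotientGroup.eq_one_iff w).1 h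

end pres

/-! ### The theorem -/

theorem t_FP : S_HOL -> S_FP := by
  intro hol t H _ n gens A B K hQ
  obtain ⟨N, hN⟩ := exists_nat_ge (max (K * (2 * K + 1) + K) (K + 1))
  have hN1 : K * (2 * K + 1) + K ≤ (N : ℝ) := (le_max_left _ _).trans hN
  have hN2 : K + 1 ≤ (N : ℝ) := (le_max_right _ _).trans hN
  have hK := hQ.pos
  have hs := hQ.surj
  have hN3 : 1 ≤ N := by
    have : (1 : ℝ) ≤ (N : ℝ) := by linarith
    exact_mod_cast this
  refine ⟨(rl_finite gens N).toFinset, fun w => ?_⟩
  rw [Set.Finite.coe_toFinset]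
  constructor
  swap
  · intro hw
    have h1 : Subgroup.normalClosure (rl gens N) ≤ (FreeGroup.lift gens).ker :=
      Subgroup.normalClosure_le_normal fun u hu => hu.2
    exact h1 hw
  intro hw
  refine cl_eq_one ?_
  -- words
  choose W hW1 hW2 using exists_word hs
  set rho : H → PG gens N := fun h => cl gens N (W h) with hrho
  have rho_mul : ∀ g h : H, wn gens g ≤ N → wn gens h ≤ N → wn gens (g * h) ≤ N →
      rho g * rho h = rho (g * h) := by
    intro g h h1 h2 h3
    rw [hrho]
    show cl gens N (W g * W h) = _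
    refine cl_eq ?_ ?_
    · rw [map_mul, hW1, hW1, hW1]
    · have e1 := FreeGroup.norm_mul_le (W g) (W h)
      have e2 := hW2 g
      have e3 := hW2 h
      have e4 := hW2 (g * h)
      omega
  -- the cocycle
  set c : NT t → NT t → PG gens N := fun a b => rho ((A a)⁻¹ * A b) with hc
  have hsm : ∀ a b, dd a b ≤ 2 * K + 1 → wn gens ((A a)⁻¹ * A b) ≤ N := by
    intro a b hab
    have h1 := hQ.a_up a b
    have h2 : K * dd a b ≤ K * (2 * K + 1) := mul_le_mul_of_nonneg_left hab hK.le
    have h3 : ((wn gens ((A a)⁻¹ * A b) : ℕ) : ℝ) ≤ (N : ℝ) := by linarith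
    exact_mod_cast h3
  have hcoc : ∀ a b d, dd a b ≤ 2 * K + 1 → dd b d ≤ 2 * K + 1 → dd a d ≤ 2 * K + 1 →
      c a b * c b d = c a d := by
    intro a b d h1 h2 h3
    have e : ((A a)⁻¹ * A b) * ((A b)⁻¹ * A d) = (A a)⁻¹ * A d := by group
    rw [hc]
    show rho _ * rho _ = rho _
    rw [rho_mul _ _ (hsm _ _ h1) (hsm _ _ h2) (by rw [e]; exact hsm _ _ h3), e]
  -- the closed chain
  set L := w.toWord with hL
  have hLw : FreeGroup.mk L = w := FreeGroup.mk_toWord
  set γ : ℕ → H := fun i => FreeGroup.lift gens (FreeGroup.mk (L.take i)) with hγ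
  set p : ℕ → NT t := fun i => B (γ i) with hp
  have hstep : ∀ i (hi : i < L.length),
      FreeGroup.mk (L.take (i + 1)) = FreeGroup.mk (L.take i) * FreeGroup.mk [L[i]] := by
    intro i hi
    rw [List.take_succ_eq_append_getElem hi, FreeGroup.mul_mk]
  have hγs : ∀ i (hi : i < L.length),
      (γ i)⁻¹ * γ (i + 1) = FreeGroup.lift gens (FreeGroup.mk [L[i]]) := by
    intro i hi
    rw [hγ]
    show (FreeGroup.lift gens (FreeGroup.mk (L.take i)))⁻¹ *
      FreeGroup.lift gens (FreeGroup.mk (L.take (i + 1))) = _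
    rw [hstep i hi, map_mul, inv_mul_cancel_left]
  have hγl : ∀ i, i < L.length → wn gens ((γ i)⁻¹ * γ (i + 1)) ≤ 1 := by
    intro i hi
    rw [hγs i hi]
    exact wn_mk_singleton_le _
  have hpd : ∀ i, i < L.length → dd (p i) (p (i + 1)) ≤ 2 * K := by
    intro i hi
    have h1 := hQ.b_up (γ i) (γ (i + 1))
    have h2 : ((wn gens ((γ i)⁻¹ * γ (i + 1)) : ℕ) : ℝ) ≤ 1 := by
      exact_mod_cast hγl i hi
    have h3 := mul_le_mul_of_nonneg_left h2 hK.le
    show dd (B (γ i)) (B (γ (i + 1))) ≤ 2 * K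
    linarith
  have hγ0 : γ 0 = 1 := by
    rw [hγ]
    simp [FreeGroup.one_eq_mk.symm]
  have hγm : γ L.length = 1 := by
    rw [hγ]
    show FreeGroup.lift gens (FreeGroup.mk (L.take L.length)) = 1
    rw [List.take_length, hLw, hw]
  have hpm : p L.length = p 0 := by
    show B (γ L.length) = B (γ 0)
    rw [hγm, hγ0]
  have hprod := hol t (2 * K) (by linarith) (PG gens N) c hcoc L.length p hpd hpm
  -- the correction terms
  set θ : ℕ → H := fun i => (γ i)⁻¹ * A (p i) with hθ
  have hθl : ∀ i, ((wn gens (θ i) : ℕ) : ℝ) ≤ K := fun i => hQ.ab (γ i)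
  have hθN : ∀ i, wn gens (θ i) ≤ N := by
    intro i
    have : ((wn gens (θ i) : ℕ) : ℝ) ≤ (N : ℝ) := (hθl i).trans (by linarith)
    exact_mod_cast this
  have key : ∀ i (hi : i < L.length),
      rho (θ i) * c (p i) (p (i + 1)) = cl gens N (FreeGroup.mk [L[i]]) * rho (θ (i + 1)) := by
    intro i hi
    have e1 : θ i * ((A (p i))⁻¹ * A (p (i + 1))) = (γ i)⁻¹ * A (p (i + 1)) := by
      rw [hθ]
      show (γ i)⁻¹ * A (p i) * ((A (p i))⁻¹ * A (p (i + 1))) = _
      group
    have e2 : ((γ i)⁻¹ * γ (i + 1)) * θ (i + 1) = (γ i)⁻¹ * A (p (i + 1)) := by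
      rw [hθ]
      show ((γ i)⁻¹ * γ (i + 1)) * ((γ (i + 1))⁻¹ * A (p (i + 1))) = _
      group
    have hl : wn gens ((γ i)⁻¹ * A (p (i + 1))) ≤ N := by
      rw [← e2]
      have h1 := wn_mul_le hs ((γ i)⁻¹ * γ (i + 1)) (θ (i + 1))
      have h2 : ((wn gens (((γ i)⁻¹ * γ (i + 1)) * θ (i + 1)) : ℕ) : ℝ) ≤
          (wn gens ((γ i)⁻¹ * γ (i + 1)) : ℝ) + (wn gens (θ (i + 1)) : ℝ) := by
        exact_mod_cast h1
      have h3 : ((wn gens ((γ i)⁻¹ * γ (i + 1)) : ℕ) : ℝ) ≤ 1 := by
        exact_mod_cast hγl i hi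
      have h4 := hθl (i + 1)
      have h5 : ((wn gens (((γ i)⁻¹ * γ (i + 1)) * θ (i + 1)) : ℕ) : ℝ) ≤ (N : ℝ) := by
        linarith
      exact_mod_cast h5
    have hd : dd (p i) (p (i + 1)) ≤ 2 * K + 1 := by linarith [hpd i hi]
    have f1 : rho (θ i) * c (p i) (p (i + 1)) = rho ((γ i)⁻¹ * A (p (i + 1))) := by
      rw [hc]
      show rho (θ i) * rho _ = _
      rw [rho_mul _ _ (hθN i) (hsm _ _ hd) (by rw [e1]; exact hl), e1]
    have f2 : rho ((γ i)⁻¹ * γ (i + 1)) * rho (θ (i + 1)) = rho ((γ i)⁻¹ * A (p (i + 1))) := by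
      rw [rho_mul _ _ ((hγl i hi).trans hN3) (hθN _) (by rw [e2]; exact hl), e2]
    have f3 : rho ((γ i)⁻¹ * γ (i + 1)) = cl gens N (FreeGroup.mk [L[i]]) := by
      refine cl_eq ?_ ?_
      · rw [hW1, hγs i hi]
      · have g1 := hW2 ((γ i)⁻¹ * γ (i + 1))
        have g2 := hγl i hi
        have g3 : (FreeGroup.mk [L[i]]).norm ≤ 1 := FreeGroup.norm_mk_le
        omega
    rw [f1, ← f2, f3]
  have tel : ∀ k, k ≤ L.length →
      rho (θ 0) * ((List.range k).map fun i => c (p i) (p (i + 1))).prod =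
        cl gens N (FreeGroup.mk (L.take k)) * rho (θ k) := by
    intro k
    induction k with
    | zero =>
      intro _
      have : cl gens N (FreeGroup.mk (L.take 0)) = 1 := by
        rw [List.take_zero, ← FreeGroup.one_eq_mk]
        rfl
      rw [this]
      simp
    | succ k ih =>
      intro hk
      have hk' : k < L.length := hk
      rw [List.range_succ, List.map_append, List.prod_append, ← mul_assoc, ih hk'.le]
      simp only [List.map_cons, List.map_nil, List.prod_cons, List.prod_nil, mul_one]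
      rw [mul_assoc, key k hk', ← mul_assoc, ← cl_mul, ← hstep k hk']
  have hfin := tel L.length le_rfl
  rw [hprod, mul_one, List.take_length, hLw] at hfin
  have hθm : θ L.length = θ 0 := by
    show (γ L.length)⁻¹ * A (p L.length) = (γ 0)⁻¹ * A (p 0)
    rw [hγm, hγ0, hpm]
  rw [hθm] at hfin
  exact mul_right_cancel (hfin.symm.trans (one_mul _).symm)

end Pool.Agent.Y153.CT
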